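import Mathlib

/-!
Definitions: representations into `PSL(2, ℂ)`, random walks, Lyapunov exponents, the bifurcation
measure of a holomorphic family over `ℂ`, and the family of the example.
-/

set_option autoImplicit false

namespace Pool.Agent.Q75.BM

open Filter Topology MeasureTheory Set
open scoped ContDiff

/-- `SL(2, ℂ)` -/
abbrev SL : Type := Matrix.SpecialLinearGroup (Fin 2) ℂ

/-- `PSL(2, ℂ)` -/
abbrev PSL : Type := SL ⧸ Subgroup.center SL

/-- the projection -/
def pr : SL →* PSL := QuotientGroup.mk' (Subgroup.center SL)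

/-- Hilbert-Schmidt norm of a matrix -/
noncomputable def hs (M : SL) : ℝ := Real.sqrt (∑ i, ∑ j, ‖M.1 i j‖ ^ 2)

/-- the norm of an element of `PSL(2, ℂ)`: the norm of a representing matrix -/
noncomputable def nrm (x : PSL) : ℝ := hs (Quotient.out x)

/-- the representation `θ` is not elementary: its image is unbounded and has no finite orbit on the
Riemann sphere (a point of the sphere is a line `L` in `ℂ^2`) -/
def NonElementary {G : Type} [Group G] (θ : G →* PSL) : Prop :=
  (∀ C : ℝ, ∃ g : G, C < nrm (θ g)) ∧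
  ∀ F : Set (Submodule ℂ (Fin 2 → ℂ)), F.Finite → F.Nonempty →
    (∀ L ∈ F, Module.finrank ℂ L = 1) →
    ¬ ∀ (g : G) (M : SL), pr M = θ g → ∀ L ∈ F, L.map (Matrix.toLin' M.1) ∈ F

/-- the image of `θ` is conjugate into `PSL(2, ℝ)` -/
def IsReal {G : Type} [Group G] (θ : G →* PSL) : Prop :=
  ∃ P : PSL, ∀ g : G, ∃ A : Matrix.SpecialLinearGroup (Fin 2) ℝ,
    P * θ g * P⁻¹ = pr (Matrix.SpecialLinearGroup.map (algebraMap ℝ ℂ) A)

/-- holomorphic families of representations with parameter space `Λ = ℂ`: holomorphic in the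
parameter, not elementary for every parameter, faithful outside a countable set of parameters, not
all conjugate -/
structure Family {G : Type} [Group G] (ρ : ℂ → G →* PSL) : Prop where
  hol : ∀ g : G, ∃ M : ℂ → SL, (∀ i j, Differentiable ℂ fun l => (M l).1 i j) ∧
    ∀ l, ρ l g = pr (M l)
  nonelementary : ∀ l, NonElementary (ρ l)
  faithful : {l : ℂ | ¬ Function.Injective (ρ l)}.Countable
  notConj : ∃ l l' : ℂ, ¬ ∃ P : PSL, ∀ g, ρ l' g = P * ρ l g * P⁻¹

/-- probability measures on `G` with finite support `S` and weights `p`, whose support generates `G`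
as a semigroup -/
structure Admissible {G : Type} [Group G] (S : Finset G) (p : G → ℝ) : Prop where
  pos : ∀ s ∈ S, 0 < p s
  sum : ∑ s ∈ S, p s = 1
  gen : Subsemigroup.closure (S : Set G) = ⊤

/-- the integral of `F` with respect to the `n`-th convolution power of the measure `μ` with support
`S` and weights `p` -/
noncomputable def conv {G : Type} [Group G] (S : Finset G) (p : G → ℝ) : ℕ → (G → ℝ) → ℝ
  | 0, F => F 1
  | n + 1, F => ∑ s ∈ S, p s * conv S p n (fun g => F (g * s))

/-- `c` is the Lyapunov exponent of `θ` -/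
def IsLyapunov {G : Type} [Group G] (S : Finset G) (p : G → ℝ) (θ : G →* PSL) (c : ℝ) : Prop :=
  Tendsto (fun n : ℕ => conv S p n (fun g => Real.log (nrm (θ g))) / n) atTop (𝓝 c)

/-- `T = dd^c χ = (1/2π) Δ χ` on `ℂ`, in the sense of distributions -/
def IsBif (χ : ℂ → ℝ) (T : Measure ℂ) : Prop :=
  IsLocallyFiniteMeasure T ∧ ∀ φ : ℂ → ℝ, ContDiff ℝ ∞ φ → HasCompactSupport φ →
    ∫ z, φ z ∂T = (1 / (2 * Real.pi)) * ∫ z, χ z * Laplacian.laplacian φ z

/-! ### The example -/

/-- the matrix `(λ, -1; 1, 0)` -/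
def mA (l : ℂ) : SL := ⟨!![l, -1; 1, 0], by simp [Matrix.det_fin_two]⟩

/-- the matrix `(1, 1; 0, 1)` -/
def mD : SL := ⟨!![1, 1; 0, 1], by simp [Matrix.det_fin_two]⟩

/-- letters -/
inductive Ltr
  | a
  | ai
  | d
  | di
  deriving DecidableEq, Fintype

/-- the matrix of a letter -/
def mat : Ltr → ℂ → SL
  | .a, l => mA l
  | .ai, l => (mA l)⁻¹
  | .d, _ => mD
  | .di, _ => mD⁻¹

/-- the matrix of a word -/
def wmat (w : List Ltr) (l : ℂ) : SL := (w.map fun s => mat s l).prod

/-- the element of a letter, as a function of the parameter with values in `PSL(2, ℂ)` -/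
def elt (s : Ltr) : ℂ → PSL := fun l => pr (mat s l)

/-- the group of the example: it is generated by the two functions
`λ ↦ ±(λ, -1; 1, 0)` and `λ ↦ ±(1, 1; 0, 1)` with values in `PSL(2, ℂ)` -/
def Gp : Subgroup (ℂ → PSL) := Subgroup.closure {elt Ltr.a, elt Ltr.d}

theorem elt_mem (s : Ltr) : elt s ∈ Gp := by
  have h : ∀ t : Ltr, t = Ltr.a ∨ t = Ltr.d → elt t ∈ Gp := by
    rintro t (rfl | rfl) <;> exact Subgroup.subset_closure (by simp)
  cases s with
  | a => exact h _ (Or.inl rfl)
  | d => exact h _ (Or.inr rfl)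
  | ai =>
    have : elt Ltr.ai = (elt Ltr.a)⁻¹ := by
      funext l; simp [elt, mat]
    rw [this]; exact Gp.inv_mem (h _ (Or.inl rfl))
  | di =>
    have : elt Ltr.di = (elt Ltr.d)⁻¹ := by
      funext l; simp [elt, mat]
    rw [this]; exact Gp.inv_mem (h _ (Or.inr rfl))

/-- the element of a letter in the group -/
def gl (s : Ltr) : Gp := ⟨elt s, elt_mem s⟩

/-- the representations: evaluation at the parameter -/
def rho (l : ℂ) : Gp →* PSL := (Pi.evalMonoidHom (fun _ : ℂ => PSL) l).comp Gp.subtype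

/-- weights of the letters -/
noncomputable def q (ε : ℝ) : Ltr → ℝ
  | .a => 1 - 3 * ε
  | _ => ε

/-- the support of the measure -/
noncomputable def Sx : Finset Gp := by
  classical exact Finset.univ.image gl

/-- the weights of the measure -/
noncomputable def px (ε : ℝ) (g : Gp) : ℝ := by
  classical exact ∑ s : Ltr, if gl s = g then q ε s else 0

/-- expectation over random words of length `n` -/
noncomputable def Ew (ε : ℝ) : ℕ → (List Ltr → ℝ) → ℝ
  | 0, F => F []
  | n + 1, F => ∑ s : Ltr, q ε s * Ew ε n (fun w => F (w ++ [s]))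

/-- number of letters `a` -/
def na (w : List Ltr) : ℕ := (w.filter fun s => decide (s = Ltr.a)).length

/-- number of the other letters -/
def nm (w : List Ltr) : ℕ := (w.filter fun s => decide (s ≠ Ltr.a)).length

/-- real unit vectors -/
noncomputable def ev (θ : ℝ) : Fin 2 → ℝ := ![Real.cos θ, Real.sin θ]

/-- the bilinear form `⟨e_α, M e_β⟩` -/
noncomputable def bf (M : SL) (α β : ℝ) : ℂ :=
  ∑ i, ∑ j, (ev α i : ℂ) * M.1 i j * (ev β j : ℂ)

/-- the length of `M e_β` -/
noncomputable def vn (M : SL) (β : ℝ) : ℝ :=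
  Real.sqrt (∑ i, ‖∑ j, M.1 i j * (ev β j : ℂ)‖ ^ 2)

/-- real matrices of letters -/
def rmat : Ltr → ℝ → Matrix (Fin 2) (Fin 2) ℝ
  | .a, l => !![l, -1; 1, 0]
  | .ai, l => !![0, 1; -1, l]
  | .d, _ => !![1, 1; 0, 1]
  | .di, _ => !![1, -1; 0, 1]

/-- real matrices of words -/
def rwmat (w : List Ltr) (l : ℝ) : Matrix (Fin 2) (Fin 2) ℝ := (w.map fun s => rmat s l).prod

/-- the lift of the action of `(1, q; 0, 1)` on directions -/
noncomputable def sh (q θ : ℝ) : ℝ :=
  θ + Complex.arg (1 + (q : ℂ) * (Real.sin θ : ℂ) * Complex.exp (-(θ : ℂ) * Complex.I))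

/-- the lifts of the actions of the letters on directions -/
noncomputable def lift : Ltr → ℝ → ℝ → ℝ
  | .a, l, θ => sh l (θ + Real.pi / 2)
  | .ai, l, θ => sh (-l) θ - Real.pi / 2
  | .d, _, θ => sh 1 θ
  | .di, _, θ => sh (-1) θ

/-- the lifts of words -/
noncomputable def lw : List Ltr → ℝ → ℝ → ℝ
  | [], _, θ => θ
  | s :: w, l, θ => lift s l (lw w l θ)

/-- the Lyapunov exponent of the example -/
noncomputable def chi (ε : ℝ) (l : ℂ) : ℝ :=
  limUnder atTop fun n : ℕ => Ew ε n (fun w => Real.log (hs (wmat w l))) / n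

/-- the segment `[-3, 3]` in `ℂ` -/
def seg : Set ℂ := (fun t : ℝ => (t : ℂ)) '' Icc (-3) 3

/-- test functions -/
structure Test (φ : ℂ → ℝ) : Prop where
  smooth : ContDiff ℝ ∞ φ
  comp : HasCompactSupport φ

end Pool.Agent.Q75.BM
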