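import Pool.Agent.Q75.BM.Stm

set_option autoImplicit false

namespace Pool.Agent.Q75.BM

open Filter Topology MeasureTheory Set
open scoped ContDiff

theorem univ_ltr : (Finset.univ : Finset Ltr) = {Ltr.a, Ltr.ai, Ltr.d, Ltr.di} := rfl

theorem sum_ltr (f : Ltr → ℝ) : ∑ s : Ltr, f s = f .a + f .ai + f .d + f .di := by
  rw [univ_ltr]
  simp [Finset.sum_insert]
  ring

theorem q_nonneg {ε : ℝ} (h0 : 0 ≤ ε) (h1 : ε ≤ 1 / 3) (s : Ltr) : 0 ≤ q ε s := by
  cases s <;> simp only [q] <;> linarith

theorem q_sum (ε : ℝ) : ∑ s : Ltr, q ε s = 1 := by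
  rw [sum_ltr]; simp only [q]; ring

theorem Ew_add (ε : ℝ) (n : ℕ) : ∀ (F H : List Ltr → ℝ),
    Ew ε n (fun w => F w + H w) = Ew ε n F + Ew ε n H := by
  induction n with
  | zero => intro F H; rfl
  | succ n ih =>
    intro F H
    simp only [Ew]
    rw [← Finset.sum_add_distrib]
    refine Finset.sum_congr rfl fun s _ => ?_
    rw [ih, mul_add]

theorem Ew_mul (ε : ℝ) (n : ℕ) : ∀ (c : ℝ) (F : List Ltr → ℝ),
    Ew ε n (fun w => c * F w) = c * Ew ε n F := by
  induction n with
  | zero => intro c F; rfl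
  | succ n ih =>
    intro c F
    simp only [Ew]
    rw [Finset.mul_sum]
    refine Finset.sum_congr rfl fun s _ => ?_
    rw [ih]; ring

theorem Ew_const (ε : ℝ) (n : ℕ) : ∀ c : ℝ, Ew ε n (fun _ => c) = c := by
  induction n with
  | zero => intro c; rfl
  | succ n ih =>
    intro c
    simp only [Ew]
    simp only [ih]
    rw [← Finset.sum_mul, q_sum, one_mul]

theorem Ew_mono {ε : ℝ} (h0 : 0 ≤ ε) (h1 : ε ≤ 1 / 3) (n : ℕ) : ∀ (F H : List Ltr → ℝ),
    (∀ w : List Ltr, w.length = n → F w ≤ H w) → Ew ε n F ≤ Ew ε n H := by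
  induction n with
  | zero => intro F H h; exact h [] rfl
  | succ n ih =>
    intro F H h
    simp only [Ew]
    refine Finset.sum_le_sum fun s _ => ?_
    refine mul_le_mul_of_nonneg_left ?_ (q_nonneg h0 h1 s)
    exact ih _ _ fun w hw => h _ (by simp [hw])

theorem t_E1 : S_E1 := fun ε h0 h1 n => ⟨Ew_add ε n, Ew_mul ε n, Ew_const ε n, Ew_mono h0 h1 n⟩

theorem Ew_sum (ε : ℝ) (n : ℕ) (F : Ltr → List Ltr → ℝ) :
    Ew ε n (fun w => ∑ s : Ltr, F s w) = ∑ s : Ltr, Ew ε n (F s) := by
  simp only [sum_ltr]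
  rw [Ew_add, Ew_add, Ew_add]

theorem Ew_split (ε : ℝ) (m n : ℕ) : ∀ (F : List Ltr → ℝ),
    Ew ε (m + n) F = Ew ε m (fun u => Ew ε n (fun v => F (u ++ v))) := by
  induction n with
  | zero => intro F; simp [Ew]
  | succ n ih =>
    intro F
    rw [← Nat.add_assoc]
    simp only [Ew]
    rw [Ew_sum]
    refine Finset.sum_congr rfl fun s _ => ?_
    rw [ih, Ew_mul]
    congr 1
    simp [List.append_assoc]

theorem na_append (w : List Ltr) (s : Ltr) :
    (na (w ++ [s]) : ℝ) = na w + (if s = Ltr.a then 1 else 0) := by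
  unfold na
  rw [List.filter_append, List.length_append]
  by_cases h : s = Ltr.a
  · simp [h]
  · simp [h]

theorem nm_append (w : List Ltr) (s : Ltr) :
    (nm (w ++ [s]) : ℝ) = nm w + (if s = Ltr.a then 0 else 1) := by
  unfold nm
  rw [List.filter_append, List.length_append]
  by_cases h : s = Ltr.a
  · simp [h]
  · simp [h]

theorem Ew_na (ε : ℝ) (n : ℕ) : Ew ε n (fun w => (na w : ℝ)) = n * (1 - 3 * ε) := by
  induction n with
  | zero => simp [Ew, na]
  | succ n ih =>
    simp only [Ew, na_append]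
    simp only [Ew_add, Ew_const, ih]
    rw [sum_ltr]
    simp only [q]
    simp
    ring

theorem Ew_nm (ε : ℝ) (n : ℕ) : Ew ε n (fun w => (nm w : ℝ)) = n * (3 * ε) := by
  induction n with
  | zero => simp [Ew, nm]
  | succ n ih =>
    simp only [Ew, nm_append]
    simp only [Ew_add, Ew_const, ih]
    rw [sum_ltr]
    simp only [q]
    simp
    ring

theorem t_E2 : S_E2 := fun ε _ _ => ⟨Ew_split ε, fun n => ⟨Ew_na ε n, Ew_nm ε n⟩⟩

theorem t_E3 : S_E3 := by
  intro ε n
  constructor
  · induction n with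
    | zero => intro F hF; exact ⟨hF [], rfl⟩
    | succ n ih =>
      intro F hF
      have h := fun s : Ltr => ih (fun w => F (w ++ [s])) (fun w => hF _)
      constructor
      · simp only [Ew]
        exact integrable_finsetSum _ fun s _ => (h s).1.const_mul (q ε s)
      · simp only [Ew]
        rw [integral_finsetSum _ fun s _ => (h s).1.const_mul (q ε s)]
        refine Finset.sum_congr rfl fun s _ => ?_
        rw [integral_const_mul, (h s).2]
  · induction n with
    | zero => intro F hF; exact hF []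
    | succ n ih =>
      intro F hF
      simp only [Ew]
      exact continuous_finset_sum _ fun s _ => continuous_const.mul (ih _ fun w => hF _)

theorem sum_px (ε : ℝ) (H : Gp → ℝ) :
    ∑ g ∈ Sx, px ε g * H g = ∑ s : Ltr, q ε s * H (gl s) := by
  classical
  have h1 : ∀ g : Gp, px ε g * H g = ∑ s : Ltr, (if gl s = g then q ε s * H g else 0) := by
    intro g
    unfold px
    rw [Finset.sum_mul]
    refine Finset.sum_congr rfl fun s _ => ?_
    by_cases h : gl s = g
    · simp [h]
    · simp [h]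
  simp only [h1]
  rw [Finset.sum_comm]
  refine Finset.sum_congr rfl fun s _ => ?_
  rw [Finset.sum_ite_eq]
  have : gl s ∈ Sx := by
    unfold Sx
    convert Finset.mem_image_of_mem gl (Finset.mem_univ s)
  rw [if_pos this]

theorem t_CV : S_CV := by
  intro ε n
  induction n with
  | zero => intro F; rfl
  | succ n ih =>
    intro F
    simp only [conv, Ew]
    rw [sum_px ε (fun s => conv Sx (px ε) n (fun g => F (g * s)))]
    refine Finset.sum_congr rfl fun s _ => ?_
    rw [ih]
    congr 2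
    funext w
    simp

theorem t_LW1 (h : S_LF) : S_LW1 := by
  intro w θ
  induction w with
  | nil =>
    refine ⟨continuous_const, fun l => ⟨1, one_pos, ?_⟩⟩
    simp [rwmat, lw]
  | cons s w ih =>
    refine ⟨?_, fun l => ?_⟩
    · exact (h s).1.comp (continuous_id.prodMk ih.1)
    · obtain ⟨r, hr, hr2⟩ := ih.2 l
      obtain ⟨-, h3⟩ := (h s).2 l
      obtain ⟨-, -, r', hr', hr2'⟩ := h3 (lw w l θ)
      refine ⟨r * r', by positivity, ?_⟩
      have e : rwmat (s :: w) l = rmat s l * rwmat w l := by simp [rwmat]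
      rw [e, ← Matrix.mulVec_mulVec, hr2, Matrix.mulVec_smul, hr2', smul_smul]
      rfl

end Pool.Agent.Q75.BM
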