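import Pool.Agent.Q75.BM.SH

set_option autoImplicit false

namespace Pool.Agent.Q75.BM

open Filter Topology MeasureTheory Set
open scoped ContDiff

theorem mulVec_two (a b c d x y : ℝ) : (!![a, b; c, d] : Matrix (Fin 2) (Fin 2) ℝ).mulVec ![x, y] =
    ![a * x + b * y, c * x + d * y] := by
  funext i; fin_cases i <;> simp [Matrix.mulVec, dotProduct, Fin.sum_univ_two]

theorem lift_vec (s : Ltr) (l θ : ℝ) :
    ∃ r : ℝ, 0 < r ∧ (rmat s l).mulVec (ev θ) = r • ev (lift s l θ) := by
  cases s with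
  | a =>
    obtain ⟨r, hr, e1, e2⟩ := sh_vec l (θ + Real.pi / 2)
    refine ⟨r, hr, ?_⟩
    rw [Real.cos_add_pi_div_two, Real.sin_add_pi_div_two] at e1
    rw [Real.sin_add_pi_div_two] at e2
    simp only [rmat, ev, lift]
    rw [mulVec_two]
    funext i
    fin_cases i
    · simp; linarith
    · simp; linarith
  | ai =>
    obtain ⟨r, hr, e1, e2⟩ := sh_vec (-l) θ
    refine ⟨r, hr, ?_⟩
    simp only [rmat, ev, lift]
    rw [mulVec_two, Real.cos_sub_pi_div_two, Real.sin_sub_pi_div_two]
    funext i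
    fin_cases i
    · simp; linarith
    · simp; linarith
  | d =>
    obtain ⟨r, hr, e1, e2⟩ := sh_vec 1 θ
    refine ⟨r, hr, ?_⟩
    simp only [rmat, ev, lift]
    rw [mulVec_two]
    funext i
    fin_cases i
    · simp; linarith
    · simp; linarith
  | di =>
    obtain ⟨r, hr, e1, e2⟩ := sh_vec (-1) θ
    refine ⟨r, hr, ?_⟩
    simp only [rmat, ev, lift]
    rw [mulVec_two]
    funext i
    fin_cases i
    · simp; linarith
    · simp; linarith

theorem lift_cont (s : Ltr) : Continuous (fun p : ℝ × ℝ => lift s p.1 p.2) := by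
  cases s with
  | a =>
    exact sh_cont.comp (f := fun p : ℝ × ℝ => (p.1, p.2 + Real.pi / 2)) (by fun_prop)
  | ai =>
    exact (sh_cont.comp (f := fun p : ℝ × ℝ => (-p.1, p.2)) (by fun_prop)).sub continuous_const
  | d =>
    exact sh_cont.comp (f := fun p : ℝ × ℝ => ((1 : ℝ), p.2)) (by fun_prop)
  | di =>
    exact sh_cont.comp (f := fun p : ℝ × ℝ => ((-1 : ℝ), p.2)) (by fun_prop)

theorem lift_mono (s : Ltr) (l : ℝ) : StrictMono (lift s l) := by
  cases s with
  | a =>
    intro x y h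
    exact t_SH2' l (by linarith)
  | ai =>
    intro x y h
    have := t_SH2' (-l) h
    simp only [lift]
    linarith
  | d => exact t_SH2' 1
  | di => exact t_SH2' (-1)

theorem lift_pi (s : Ltr) (l θ : ℝ) : lift s l (θ + Real.pi) = lift s l θ + Real.pi := by
  cases s with
  | a =>
    simp only [lift]
    rw [← sh_pi]; congr 1; ring
  | ai =>
    simp only [lift]
    rw [sh_pi]; ring
  | d => exact sh_pi 1 θ
  | di => exact sh_pi (-1) θ

theorem lift_lt (s : Ltr) (l θ : ℝ) : |lift s l θ - θ| < 3 * Real.pi / 2 := by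
  have hp := Real.pi_pos
  cases s with
  | a =>
    simp only [lift]
    have h := abs_lt.1 (sh_lt l (θ + Real.pi / 2))
    rw [abs_lt]; constructor <;> linarith [h.1, h.2]
  | ai =>
    simp only [lift]
    have h := abs_lt.1 (sh_lt (-l) θ)
    rw [abs_lt]; constructor <;> linarith [h.1, h.2]
  | d =>
    simp only [lift]
    have h := abs_lt.1 (sh_lt 1 θ)
    rw [abs_lt]; constructor <;> linarith [h.1, h.2]
  | di =>
    simp only [lift]
    have h := abs_lt.1 (sh_lt (-1) θ)
    rw [abs_lt]; constructor <;> linarith [h.1, h.2]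

theorem t_LF' : S_LF := fun s => ⟨lift_cont s, fun l => ⟨lift_mono s l, fun θ =>
  ⟨lift_lt s l θ, lift_pi s l θ, lift_vec s l θ⟩⟩⟩

theorem t_LF (_ : S_SH1) (_ : S_SH2) : S_LF := t_LF'

/-- `sin x > 0`-type localisation -/
theorem loc1 {x : ℝ} (h1 : -(Real.pi / 4) < x) (h2 : x < 7 * Real.pi / 4)
    (hc : 0 < Real.cos x) (hs : 0 < Real.sin x) (hcs : Real.sin x < Real.cos x) :
    x ≤ Real.pi / 4 := by
  have hp := Real.pi_pos
  by_contra hn
  have hx : Real.pi / 4 < x := not_le.1 hn
  -- `sin (x - π/4) < 0`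
  have h3 : Real.sin (x - Real.pi / 4) < 0 := by
    rw [Real.sin_sub, Real.cos_pi_div_four, Real.sin_pi_div_four]
    have : 0 < Real.sqrt 2 / 2 := by positivity
    nlinarith
  -- so `x > π + π/4`
  have h4 : Real.pi + Real.pi / 4 < x := by
    by_contra h5
    have : 0 ≤ Real.sin (x - Real.pi / 4) :=
      Real.sin_nonneg_of_nonneg_of_le_pi (by linarith) (by linarith [not_lt.1 h5])
    linarith
  -- then `sin x < 0`
  have h6 : Real.sin x < 0 := by
    have : Real.sin x = -Real.sin (x - Real.pi) := by rw [Real.sin_sub_pi, neg_neg]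
    rw [this, neg_lt_zero]
    exact Real.sin_pos_of_pos_of_lt_pi (by linarith) (by linarith)
  linarith

theorem t_L3' : S_L3 := by
  have hp := Real.pi_pos
  have h2 : 0 < Real.sqrt 2 / 2 := by positivity
  constructor
  · show sh 3 (Real.pi / 4 + Real.pi / 2) ≤ Real.pi / 4
    obtain ⟨r, hr, e1, e2⟩ := sh_vec 3 (Real.pi / 4 + Real.pi / 2)
    rw [Real.cos_add_pi_div_two, Real.sin_add_pi_div_two, Real.sin_pi_div_four,
      Real.cos_pi_div_four] at e1
    rw [Real.sin_add_pi_div_two, Real.cos_pi_div_four] at e2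
    have h := abs_lt.1 (sh_lt 3 (Real.pi / 4 + Real.pi / 2))
    have hc : 0 < Real.cos (sh 3 (Real.pi / 4 + Real.pi / 2)) := by
      by_contra hn
      have : r * Real.cos (sh 3 (Real.pi / 4 + Real.pi / 2)) ≤ 0 :=
        mul_nonpos_of_nonneg_of_nonpos hr.le (not_lt.1 hn)
      linarith
    have hs : 0 < Real.sin (sh 3 (Real.pi / 4 + Real.pi / 2)) := by
      by_contra hn
      have : r * Real.sin (sh 3 (Real.pi / 4 + Real.pi / 2)) ≤ 0 :=
        mul_nonpos_of_nonneg_of_nonpos hr.le (not_lt.1 hn)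
      linarith
    have hcs : Real.sin (sh 3 (Real.pi / 4 + Real.pi / 2)) <
        Real.cos (sh 3 (Real.pi / 4 + Real.pi / 2)) := by
      by_contra hn
      have := mul_le_mul_of_nonneg_left (not_lt.1 hn) hr.le
      linarith
    exact loc1 (by linarith [h.1]) (by linarith [h.2]) hc hs hcs
  · show 3 * Real.pi / 4 + Real.pi ≤ sh (-3) (3 * Real.pi / 4 + Real.pi / 2)
    obtain ⟨r, hr, e1, e2⟩ := sh_vec (-3) (3 * Real.pi / 4 + Real.pi / 2)
    have a1 : (3 * Real.pi / 4 + Real.pi / 2 : ℝ) = Real.pi / 4 + Real.pi := by ring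
    rw [a1] at e1 e2 ⊢
    have h := abs_lt.1 (sh_lt (-3) (Real.pi / 4 + Real.pi))
    rw [Real.cos_add_pi, Real.sin_add_pi, Real.sin_pi_div_four,
      Real.cos_pi_div_four] at e1
    rw [Real.sin_add_pi, Real.sin_pi_div_four] at e2
    set x := sh (-3) (Real.pi / 4 + Real.pi) with hx
    have hc : 0 < Real.cos x := by
      by_contra hn
      have : r * Real.cos x ≤ 0 := mul_nonpos_of_nonneg_of_nonpos hr.le (not_lt.1 hn)
      linarith
    have hs : Real.sin x < 0 := by
      by_contra hn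
      have : 0 ≤ r * Real.sin x := mul_nonneg hr.le (not_lt.1 hn)
      linarith
    have hcs : -Real.sin x < Real.cos x := by
      by_contra hn
      have := mul_le_mul_of_nonneg_left (not_lt.1 hn) hr.le
      linarith
    -- apply `loc1` to `2π - x`
    have h7 : 2 * Real.pi - x ≤ Real.pi / 4 := by
      apply loc1
      · linarith [h.2]
      · linarith [h.1]
      · rw [Real.cos_two_pi_sub]; exact hc
      · rw [Real.sin_two_pi_sub]; linarith
      · rw [Real.cos_two_pi_sub, Real.sin_two_pi_sub]; exact hcs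
    linarith

theorem t_L3 (_ : S_SH1) : S_L3 := t_L3'

end Pool.Agent.Q75.BM
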