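import Pool.Agent.Q75.BM.Main
import Pool.Agent.Q75.BM.E
import Pool.Agent.Q75.BM.LF
import Pool.Agent.Q90.BM.LP
import Pool.Agent.Q90.BM.RO
import Pool.Agent.Q90.BM.AV1
import Pool.Agent.Q187.BM.AV2
import Pool.Agent.Q295.BM.FB
import Pool.Agent.Q295.BM.RM
import Pool.Agent.Q252.BM.WM
import Pool.Agent.Q103.BM.P1
import Pool.Agent.Q136.BM.CT
import Pool.Agent.Q136.BM.LW2
import Pool.Agent.Q39.BM.M1
import Pool.Agent.Q259.BM.SG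
import Pool.Agent.Q254.BM.TT
import Pool.Agent.Q204.BM.Nr
import Pool.Agent.Q221.BM.FA
import Pool.Agent.Q110.BM.NE
import Pool.Agent.Q110.BM.NC
import Pool.Agent.Q278.BM.HB

set_option autoImplicit false

namespace Pool.Agent.Q75.BM

open MeasureTheory Set

theorem main (δ : ℝ) (hδ : 0 < δ) :
    ∃ (G : Type) (_ : Group G) (ρ : ℂ → G →* PSL) (S : Finset G) (p : G → ℝ) (χ : ℂ → ℝ),
      Family ρ ∧ Admissible S p ∧ (∀ l, IsLyapunov S p (ρ l) (χ l)) ∧ (∃ T, IsBif χ T) ∧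
      ∀ T : Measure ℂ, IsBif χ T → T univ ≤ 1 ∧
        ENNReal.ofReal (1 - δ) ≤ T {l | IsReal (ρ l)} := by
  have hLP : S_LP := Pool.Agent.Q90.BM.t_LP
  have hRO : S_RO := Pool.Agent.Q90.BM.t_RO hLP
  have hAV1 : S_AV1 := Pool.Agent.Q90.BM.t_AV1
  have hAV2 : S_AV2 := Pool.Agent.Q187.BM.t_AV2 hAV1
  have hFB : S_FB := Pool.Agent.Q295.BM.t_FB
  have hWM : S_WM := Pool.Agent.Q252.BM.t_WM
  have hP1 : S_P1 := Pool.Agent.Q103.BM.t_P1 hLP hRO hAV1 hFB hWM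
  have hLW2 : S_LW2 := Pool.Agent.Q136.BM.t_LW2 t_LF' t_L3'
  have hCT : S_CT := Pool.Agent.Q136.BM.t_CT (t_LW1 t_LF') hLW2
  have hRT : S_RT := Pool.Agent.Q136.BM.t_RT hCT hWM
  have hRM : S_RM := Pool.Agent.Q295.BM.t_RM
  have hSG : S_SG := Pool.Agent.Q259.BM.t_SG
  have hTT : S_TT := Pool.Agent.Q254.BM.tt
  have hNR : S_NR := Pool.Agent.Q204.BM.t_NR
  have hAD : S_AD := Pool.Agent.Q204.BM.t_AD
  have hHO : S_HO := Pool.Agent.Q204.BM.t_HO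
  have hRE : S_RE := Pool.Agent.Q204.BM.t_RE
  have hFA : S_FA := Pool.Agent.Q221.BM.t_FA hHO hNR
  have hNE : S_NE := Pool.Agent.Q110.BM.NE.t_NE hNR
  have hNC : S_NC := Pool.Agent.Q110.BM.t_NC hNR
  have hP2 : S_P2 := Pool.Agent.Q278.BM.t_P2 hLP hP1 hAV2 hFB
  have hCH : S_CH := Pool.Agent.Q278.BM.t_CHx t_E1 t_E2 Pool.Agent.Q278.BM.t_HBx
  have hLM : S_LM := Pool.Agent.Q278.BM.t_LMx hLP hCH t_E3 Pool.Agent.Q278.BM.t_HBx t_E1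
  have hM1 : S_M1 := Pool.Agent.Q39.BM.t_M1 hLM hP2 hRT t_E1 t_E2
  exact main_of hCH hLM hM1 hRM hSG hTT hNR t_CV hAD hHO hFA hNE hNC hRE δ hδ

end Pool.Agent.Q75.BM
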