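import Pool.Agent.Q75.BM.Stm

set_option autoImplicit false

namespace Pool.Agent.Q75.BM

open Filter Topology MeasureTheory Set
open scoped ContDiff

theorem rho_word (w : List Ltr) (l : ℂ) : rho l ((w.map gl).prod) = pr (wmat w l) := by
  induction w with
  | nil => simp [wmat]
  | cons s w ih =>
    rw [List.map_cons, List.prod_cons, map_mul, ih]
    have : rho l (gl s) = pr (mat s l) := rfl
    rw [this, ← map_mul]
    simp [wmat]

theorem main_of (hCH : S_CH) (hLM : S_LM) (hM1 : S_M1) (hRM : S_RM) (hSG : S_SG) (hTT : S_TT)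
    (hNR : S_NR) (hCV : S_CV) (hAD : S_AD) (hHO : S_HO) (hFA : S_FA) (hNE : S_NE) (hNC : S_NC)
    (hRE : S_RE) (δ : ℝ) (hδ : 0 < δ) :
    ∃ (G : Type) (_ : Group G) (ρ : ℂ → G →* PSL) (S : Finset G) (p : G → ℝ) (χ : ℂ → ℝ),
      Family ρ ∧ Admissible S p ∧ (∀ l, IsLyapunov S p (ρ l) (χ l)) ∧ (∃ T, IsBif χ T) ∧
      ∀ T : Measure ℂ, IsBif χ T → T univ ≤ 1 ∧
        ENNReal.ofReal (1 - δ) ≤ T {l | IsReal (ρ l)} := by
  obtain ⟨ε, hε0, hε1, hε2⟩ : ∃ ε : ℝ, 0 < ε ∧ ε < 1 / 3 ∧ 15 * ε ≤ δ := by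
    refine ⟨min (δ / 15) (1 / 4), lt_min (by positivity) (by norm_num), ?_, ?_⟩
    · exact lt_of_le_of_lt (min_le_right _ _) (by norm_num)
    · have := min_le_left (δ / 15) (1 / 4 : ℝ)
      linarith
  have hpi := Real.pi_pos
  refine ⟨Gp, inferInstance, rho, Sx, px ε, chi ε, ⟨hHO, hNE, hFA, hNC⟩, hAD ε hε0 hε1, ?_, ?_, ?_⟩
  · intro l
    unfold IsLyapunov
    have h := (hCH ε hε0.le hε1.le l).1
    refine h.congr fun n => ?_
    rw [hCV]
    congr 2
    funext w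
    rw [rho_word, hNR.1]
  · exact hRM (chi ε) (hLM ε hε0.le hε1.le).1 fun φ hφ hφ0 => (hM1 ε hε0.le hε1.le φ hφ hφ0).1
  · intro T hT
    have hloc := hT.1
    constructor
    · refine hTT T hloc fun φ hφ h0 h1 => ?_
      rw [hT.2 φ hφ.smooth hφ.comp]
      have h := (hM1 ε hε0.le hε1.le φ hφ h0).2.2 h1
      have h2 : (∫ z, chi ε z * Laplacian.laplacian φ z) ≤ 2 * Real.pi := h
      rw [one_div, inv_mul_le_iff₀ (by positivity)]
      linarith
    · have h3 : ENNReal.ofReal (1 - δ) ≤ T seg := by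
        refine hSG T (1 - δ) hloc fun φ hφ h0 h1 => ?_
        rw [hT.2 φ hφ.smooth hφ.comp]
        have h := (hM1 ε hε0.le hε1.le φ hφ h0).2.1 h1
        have h2 : 2 * Real.pi * (1 - 15 * ε) ≤ ∫ z, chi ε z * Laplacian.laplacian φ z := h
        rw [one_div, inv_mul_eq_div, le_div_iff₀ (by positivity)]
        nlinarith
      refine h3.trans (measure_mono ?_)
      rintro z ⟨t, -, rfl⟩
      exact hRE t

end Pool.Agent.Q75.BM
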