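import Pool.Agent.Q75.BM.Stm

set_option autoImplicit false

namespace Pool.Agent.Q75.BM

open Filter Topology MeasureTheory Set
open scoped ContDiff

/-- the complex factor of the shear -/
noncomputable def uu (q θ : ℝ) : ℂ :=
  1 + (q : ℂ) * (Real.sin θ : ℂ) * Complex.exp (-(θ : ℂ) * Complex.I)

theorem exp_neg_eq (θ : ℝ) : Complex.exp (-(θ : ℂ) * Complex.I) =
    (Real.cos θ : ℂ) - (Real.sin θ : ℂ) * Complex.I := by
  have : -(θ : ℂ) * Complex.I = ((-θ : ℝ) : ℂ) * Complex.I := by push_cast; ring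
  rw [this, Complex.exp_mul_I, ← Complex.ofReal_cos, ← Complex.ofReal_sin, Real.cos_neg,
    Real.sin_neg]
  push_cast; ring

theorem uu_re (q θ : ℝ) : (uu q θ).re = 1 + q * Real.sin θ * Real.cos θ := by
  unfold uu
  rw [exp_neg_eq]
  simp [Complex.add_re, Complex.mul_re, Complex.mul_im, Complex.sub_re, Complex.sub_im,
    -Complex.ofReal_sin, -Complex.ofReal_cos]

theorem uu_im (q θ : ℝ) : (uu q θ).im = -(q * Real.sin θ ^ 2) := by
  unfold uu
  rw [exp_neg_eq]
  simp [Complex.add_im, Complex.mul_re, Complex.mul_im, Complex.sub_re, Complex.sub_im,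
    -Complex.ofReal_sin, -Complex.ofReal_cos]
  ring

theorem uu_slit (q θ : ℝ) : uu q θ ∈ Complex.slitPlane := by
  rw [Complex.mem_slitPlane_iff]
  by_cases h : (uu q θ).im = 0
  · left
    rw [uu_im] at h
    rw [uu_re]
    have h2 : q * Real.sin θ = 0 := by
      have : q * Real.sin θ ^ 2 = 0 := by linarith
      rcases mul_eq_zero.1 this with h3 | h3
      · rw [h3, zero_mul]
      · rw [pow_eq_zero_iff (by norm_num)] at h3
        rw [h3, mul_zero]
    rw [h2]; norm_num
  · exact Or.inr h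

theorem uu_ne (q θ : ℝ) : uu q θ ≠ 0 := Complex.slitPlane_ne_zero (uu_slit q θ)

theorem sh_eq (q θ : ℝ) : sh q θ = θ + Complex.arg (uu q θ) := rfl

theorem uu_cont : Continuous (fun p : ℝ × ℝ => uu p.1 p.2) := by
  unfold uu
  fun_prop

theorem sh_cont : Continuous (fun p : ℝ × ℝ => sh p.1 p.2) := by
  simp only [sh_eq]
  refine continuous_snd.add ?_
  rw [continuous_iff_continuousAt]
  intro p
  exact (Complex.continuousAt_arg (uu_slit p.1 p.2)).comp
    (f := fun p : ℝ × ℝ => uu p.1 p.2) uu_cont.continuousAt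

theorem sh_vec (q θ : ℝ) : ∃ r : ℝ, 0 < r ∧
    Real.cos θ + q * Real.sin θ = r * Real.cos (sh q θ) ∧
      Real.sin θ = r * Real.sin (sh q θ) := by
  refine ⟨‖uu q θ‖, norm_pos_iff.2 (uu_ne q θ), ?_⟩
  have h1 : Complex.exp (θ * Complex.I) * uu q θ =
      (‖uu q θ‖ : ℂ) * Complex.exp ((sh q θ : ℂ) * Complex.I) := by
    rw [sh_eq]
    push_cast
    rw [add_mul, Complex.exp_add]
    conv_lhs => rw [← Complex.norm_mul_exp_arg_mul_I (uu q θ)]
    ring
  have h2 : Complex.exp (θ * Complex.I) * uu q θ =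
      ((Real.cos θ + q * Real.sin θ : ℝ) : ℂ) + ((Real.sin θ : ℝ) : ℂ) * Complex.I := by
    unfold uu
    rw [mul_add, mul_one]
    have h3 : Complex.exp (θ * Complex.I) * ((q : ℂ) * (Real.sin θ : ℂ) *
        Complex.exp (-(θ : ℂ) * Complex.I)) = (q : ℂ) * (Real.sin θ : ℂ) := by
      have : Complex.exp (θ * Complex.I) * Complex.exp (-(θ : ℂ) * Complex.I) = 1 := by
        rw [← Complex.exp_add]; simp
      calc _ = (q : ℂ) * (Real.sin θ : ℂ) *
          (Complex.exp (θ * Complex.I) * Complex.exp (-(θ : ℂ) * Complex.I)) := by ring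
        _ = _ := by rw [this, mul_one]
    rw [h3, Complex.exp_mul_I, ← Complex.ofReal_cos, ← Complex.ofReal_sin]
    push_cast; ring
  rw [h2, Complex.exp_mul_I, ← Complex.ofReal_cos, ← Complex.ofReal_sin] at h1
  have hr := congrArg Complex.re h1
  have hi := congrArg Complex.im h1
  simp [Complex.mul_re, Complex.mul_im, -Complex.ofReal_sin, -Complex.ofReal_cos] at hr hi
  exact ⟨hr, hi⟩

theorem sh_lt (q θ : ℝ) : |sh q θ - θ| < Real.pi := by
  rw [sh_eq, add_sub_cancel_left, abs_lt]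
  have h := (Complex.mem_slitPlane_iff_arg.1 (uu_slit q θ)).1
  exact ⟨Complex.neg_pi_lt_arg _, lt_of_le_of_ne (Complex.arg_le_pi _) h⟩

theorem uu_pi (q θ : ℝ) : uu q (θ + Real.pi) = uu q θ := by
  apply Complex.ext
  · rw [uu_re, uu_re, Real.sin_add_pi, Real.cos_add_pi]; ring
  · rw [uu_im, uu_im, Real.sin_add_pi]; ring

theorem sh_pi (q θ : ℝ) : sh q (θ + Real.pi) = sh q θ + Real.pi := by
  rw [sh_eq, sh_eq, uu_pi]; ring

theorem t_SH1 : S_SH1 := ⟨sh_cont, fun q θ => ⟨sh_lt q θ, sh_pi q θ, sh_vec q θ⟩⟩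

theorem sin_sh_pos (q θ θ' : ℝ) (h1 : θ < θ') (h2 : θ' < θ + Real.pi) :
    0 < Real.sin (sh q θ' - sh q θ) := by
  obtain ⟨r, hr, e1, e2⟩ := sh_vec q θ
  obtain ⟨r', hr', e1', e2'⟩ := sh_vec q θ'
  have h3 : 0 < Real.sin (θ' - θ) :=
    Real.sin_pos_of_pos_of_lt_pi (by linarith) (by linarith)
  have h4 : r * r' * Real.sin (sh q θ' - sh q θ) = Real.sin (θ' - θ) := by
    rw [Real.sin_sub, Real.sin_sub]
    calc r * r' * (Real.sin (sh q θ') * Real.cos (sh q θ) -
          Real.cos (sh q θ') * Real.sin (sh q θ)) =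
        (r' * Real.sin (sh q θ')) * (r * Real.cos (sh q θ)) -
          (r' * Real.cos (sh q θ')) * (r * Real.sin (sh q θ)) := by ring
      _ = Real.sin θ' * (Real.cos θ + q * Real.sin θ) -
          (Real.cos θ' + q * Real.sin θ') * Real.sin θ := by rw [← e1, ← e2, ← e1', ← e2']
      _ = _ := by ring
  by_contra hn
  have h5 : Real.sin (sh q θ' - sh q θ) ≤ 0 := not_lt.1 hn
  have : r * r' * Real.sin (sh q θ' - sh q θ) ≤ 0 :=
    mul_nonpos_of_nonneg_of_nonpos (by positivity) h5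
  linarith

theorem sh_mono_aux (q θ θ' : ℝ) (h1 : θ < θ') (h2 : θ' < θ + Real.pi) : sh q θ < sh q θ' := by
  by_contra hn
  have hn' : sh q θ' - sh q θ ≤ 0 := by linarith [not_lt.1 hn]
  have hpos := sin_sh_pos q θ θ' h1 h2
  -- then `sh q θ' - sh q θ ≤ - π`
  have h3 : sh q θ' - sh q θ < -Real.pi := by
    by_contra h4
    have h5 : -Real.pi ≤ sh q θ' - sh q θ := not_lt.1 h4
    have : Real.sin (sh q θ' - sh q θ) ≤ 0 := Real.sin_nonpos_of_nonpos_of_neg_pi_le hn' h5
    linarith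
  -- intermediate value
  have hc : Continuous (fun t : ℝ => sh q t - sh q θ) := by
    have : Continuous (fun t : ℝ => sh q t) := sh_cont.comp (continuous_const.prodMk continuous_id)
    exact this.sub continuous_const
  have hiv := intermediate_value_Icc' h1.le hc.continuousOn
  have hmem : (-(Real.pi / 2)) ∈ Icc (sh q θ' - sh q θ) (sh q θ - sh q θ) := by
    constructor
    · linarith [Real.pi_pos]
    · rw [sub_self]; linarith [Real.pi_pos]
  obtain ⟨t, ht, ht2⟩ := hiv hmem
  have ht0 : θ < t := by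
    rcases ht.1.lt_or_eq with h | h
    · exact h
    · exfalso
      rw [← h] at ht2
      have h8 : sh q θ - sh q θ = -(Real.pi / 2) := ht2
      rw [sub_self] at h8
      linarith [Real.pi_pos]
  have h6 := sin_sh_pos q θ t ht0 (lt_of_le_of_lt ht.2 h2)
  have h7 : sh q t - sh q θ = -(Real.pi / 2) := ht2
  rw [h7, Real.sin_neg, Real.sin_pi_div_two] at h6
  linarith

theorem strictMono_of_pi {f : ℝ → ℝ} (hpi : ∀ θ, f (θ + Real.pi) = f θ + Real.pi)
    (h : ∀ θ θ', θ < θ' → θ' < θ + Real.pi → f θ < f θ') : StrictMono f := by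
  have hn : ∀ (n : ℕ) (θ : ℝ), f (θ + n * Real.pi) = f θ + n * Real.pi := by
    intro n
    induction n with
    | zero => intro θ; simp
    | succ n ih =>
      intro θ
      have : θ + ((n + 1 : ℕ) : ℝ) * Real.pi = (θ + n * Real.pi) + Real.pi := by push_cast; ring
      rw [this, hpi, ih]; push_cast; ring
  intro θ θ' hlt
  have hp := Real.pi_pos
  set n : ℕ := ⌊(θ' - θ) / Real.pi⌋₊ with hn0
  have h0 : 0 ≤ (θ' - θ) / Real.pi := div_nonneg (by linarith) hp.le
  have h1 : (n : ℝ) ≤ (θ' - θ) / Real.pi := Nat.floor_le h0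
  have h2 : (θ' - θ) / Real.pi < n + 1 := Nat.lt_floor_add_one _
  have h1' : n * Real.pi ≤ θ' - θ := by rwa [le_div_iff₀ hp] at h1
  have h2' : θ' - θ < (n + 1) * Real.pi := by rwa [div_lt_iff₀ hp] at h2
  have h3 : f (θ' - n * Real.pi) = f θ' - n * Real.pi := by
    have := hn n (θ' - n * Real.pi)
    rw [sub_add_cancel] at this
    linarith
  rcases (show θ ≤ θ' - n * Real.pi by linarith).lt_or_eq with h4 | h4
  · have := h θ (θ' - n * Real.pi) h4 (by linarith)
    rw [h3] at this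
    have : 0 ≤ n * Real.pi := by positivity
    linarith
  · have hn1 : 0 < (n : ℝ) * Real.pi := by linarith
    have : f θ' = f θ + n * Real.pi := by
      have h5 := hn n θ
      have : θ + n * Real.pi = θ' := by linarith
      rw [this] at h5
      exact h5
    linarith

theorem t_SH2' : S_SH2 := fun q => strictMono_of_pi (sh_pi q) (sh_mono_aux q)

theorem t_SH2 (_ : S_SH1) : S_SH2 := t_SH2'

end Pool.Agent.Q75.BM
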