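import Pool.Agent.Q75.BM.Defs
import Pool.Agent.Q72.WE.Pot

/-!
Project BM (MP_bed24d_an, full answer): the lemmas with their proofs.

Answer to Q1: yes. Family `ρ_λ` over `λ ∈ ℂ` generated by `A = ±(λ, -1; 1, 0)` and
`D = ±(1, 1; 0, 1)`, random walk `A` with probability `1 - 3ε`, `A⁻¹, D, D⁻¹` with probability `ε`.
For real `λ` everything is real. When `λ` goes from `-3` to `3` the direction of the vector
`M_w(λ) e_β` turns at least `(na - 4 nm - 2) π`, `na` = number of letters `A`, `nm` = number of the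
others; so the polynomial `⟨e_α, M_w(λ) e_β⟩` has at least `na - 4 nm - 3` zeros on `[-3, 3]`. Now
`Δ log |polynomial| = 2 π ∑ δ_zero`, and the average of `log |⟨e_α, M e_β⟩|` over `α, β` is
`log ‖M‖ + O(1)`. Divide by `n` and let `n → ∞`.
-/

set_option autoImplicit false

namespace Pool.Agent.Q75.BM

open Filter Topology MeasureTheory Set
open scoped ContDiff

/-- the Laplacian -/
noncomputable abbrev Lap (φ : ℂ → ℝ) : ℂ → ℝ := Laplacian.laplacian φ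

/-- LP. `Pool.Agent.Q72.WE.LL.continuous_laplacian`, `hasCompactSupport_laplacian` (for ContDiff ℝ 2);
the integral of `Δ φ` is zero: `Pool.Agent.Q72.WE.LL.green` with `v = 1` (look at its statement), or
`log_translate` ... -/
def S_LP : Prop := ∀ φ : ℂ → ℝ, Test φ → Continuous (Lap φ) ∧ HasCompactSupport (Lap φ) ∧
  ∫ z, Lap φ z = 0

/-- RO (uses S_LP). `log ‖P z‖ = log ‖leading coefficient‖ + ∑ over roots log ‖z - root‖` for `z` not
a root (a finite set, so almost everywhere; `Polynomial.eq_prod_roots_of_splits_id` /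
`IsAlgClosed.splits`); each term by `Pool.Agent.Q72.WE.log_translate`, the constant by S_LP; local
integrability by `Pool.Agent.Q72.WE.locInt_log`. Induction on the multiset of roots: it is easiest to
prove the statement for `P = C a * (m.map fun r => X - C r).prod`, `a ≠ 0`. -/
def S_RO : Prop := ∀ (P : Polynomial ℂ), P ≠ 0 →
  LocallyIntegrable (fun z : ℂ => Real.log ‖P.eval z‖) ∧
  ∀ φ : ℂ → ℝ, Test φ →
    ∫ z, Real.log ‖P.eval z‖ * Lap φ z = 2 * Real.pi * (P.roots.map φ).sum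

/-- AV1. With `A = (z 0 - i z 1)/2`, `B = (z 0 + i z 1)/2`: `cos α z 0 + sin α z 1 = A e^{iα} + B e^{-iα}`,
so its modulus is `‖A e^{2iα} + B‖`. The mean over `α` of `log ‖A e^{2iα} + B‖` is
`log (max ‖A‖ ‖B‖)` (Mathlib: `circleAverage_log_norm_sub_const_eq_posLog` and its neighbours in
Mathlib/Analysis/SpecialFunctions/Integrals/PosLogEqCircleAverage.lean and JensenFormula; the
substitution `α ↦ 2α` by periodicity: `∫_0^{2π} g (2α) = ∫_0^{2π} g` for `2π`-periodic `g`; if `A = 0`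
the function is constant). And `max ‖A‖ ‖B‖ ≥ N / 2` because
`‖A‖^2 + ‖B‖^2 = (‖z 0‖^2 + ‖z 1‖^2) / 2 = N^2/2`. The upper bound is Cauchy-Schwarz. Zeros: for
`A e^{2iα} = -B` with `(A, B) ≠ 0` there are countably many `α`. -/
def S_AV1 : Prop := ∀ z : Fin 2 → ℂ, z ≠ 0 →
  IntervalIntegrable (fun α : ℝ => Real.log ‖∑ i, (ev α i : ℂ) * z i‖) volume 0 (2 * Real.pi) ∧
  2 * Real.pi * (Real.log (Real.sqrt (∑ i, ‖z i‖ ^ 2)) - 1) ≤
    ∫ α in (0 : ℝ)..(2 * Real.pi), Real.log ‖∑ i, (ev α i : ℂ) * z i‖ ∧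
  (∀ α : ℝ, ∑ i, (ev α i : ℂ) * z i ≠ 0 →
    Real.log ‖∑ i, (ev α i : ℂ) * z i‖ ≤ Real.log (Real.sqrt (∑ i, ‖z i‖ ^ 2))) ∧
  ∀ᵐ α : ℝ, ∑ i, (ev α i : ℂ) * z i ≠ 0

/-- AV2 (uses S_AV1). `vn M β > 0` because `M` is invertible and `e_β ≠ 0`. `vn M β ≤ hs M`:
Cauchy-Schwarz. Lower bound: let `r i` be the rows of `M`, choose `i` with
`∑_j ‖M i j‖^2 ≥ hs^2 / 2`; then `vn M β ≥ ‖∑_j M i j e_β j‖`, and by S_AV1 for the row
`∫ log ≥ 2π (log (hs / √2) - 1) ≥ 2π (log hs - 2)` (`log √2 ≤ 1`). `β ↦ vn M β` is continuous and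
positive, so the integrability is clear. -/
def S_AV2 : Prop := ∀ M : SL, (∀ β : ℝ, 0 < vn M β ∧ vn M β ≤ hs M) ∧
  2 * Real.pi * (Real.log (hs M) - 2) ≤ ∫ β in (0 : ℝ)..(2 * Real.pi), Real.log (vn M β)

/-- FB (Fubini). On `(0, 2π] × supp f`: `|h| ≤ 2 |K| - h` (a.e.), so
`∫ |h| dα ≤ 4π |K| - 2π (K - c) ≤ 6π |K| + 2π c` and `h f` is integrable on the product
(`integrable_prod_iff'`); then
`∫ (∫_0^{2π} h α l dα) f l dl = ∫_0^{2π} (∫ h α l f l dl) dα ≥ 2π B`, and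
`|∫_0^{2π} h α l dα - 2π K l| ≤ 2π c` (from `h ≤ K` a.e. and the lower bound), hence
`2π ∫ K f ≥ 2π B - 2π c ∫ |f|`. -/
def S_FB : Prop := ∀ (h : ℝ → ℂ → ℝ) (K f : ℂ → ℝ) (c B : ℝ), 0 ≤ c →
  Measurable (Function.uncurry h) → Measurable K → LocallyIntegrable K → Continuous f →
  HasCompactSupport f →
  (∀ l, IntervalIntegrable (fun α => h α l) volume 0 (2 * Real.pi)) →
  (∀ l, ∀ᵐ α : ℝ, h α l ≤ K l) →
  (∀ l, 2 * Real.pi * (K l - c) ≤ ∫ α in (0 : ℝ)..(2 * Real.pi), h α l) →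
  (∀ᵐ α : ℝ, B ≤ ∫ l, h α l * f l) →
  B - c * (∫ l, |f l|) ≤ ∫ l, K l * f l

/-- WM. Polynomial entries by induction on the word (`mA l`, its inverse `(0, 1; -1, l)`, `mD`, its
inverse `(1, -1; 0, 1)`; `Matrix.SpecialLinearGroup.SL2_inv_expl`); for real parameter the matrices
are `rwmat`. -/
def S_WM : Prop := ∀ w : List Ltr,
  (∀ i j, ∃ P : Polynomial ℂ, P.natDegree ≤ w.length ∧ ∀ l : ℂ, (wmat w l).1 i j = P.eval l) ∧
  (∀ (l : ℝ) i j, (wmat w (l : ℂ)).1 i j = ((rwmat w l i j : ℝ) : ℂ)) ∧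
  ∀ α β : ℝ, ∃ P : Polynomial ℂ, P.natDegree ≤ w.length ∧
    ∀ l : ℂ, bf (wmat w l) α β = P.eval l

/-- HB. `hs (wmat w l) ≥ 1` because the determinant is 1 (`1 = |ad - bc| ≤ hs^2`, even `hs^2 ≥ 2`),
`hs` is submultiplicative (Cauchy-Schwarz), `hs (mat s l) ≤ ‖l‖ + 2` (`hs^2 = ‖l‖^2 + 2` or `3`), so
`0 ≤ log hs (wmat w l) ≤ length * log (‖l‖ + 2)`. Measurability: continuous (polynomials, hs > 0). -/
def S_HB : Prop := (∀ M : SL, 1 ≤ hs M) ∧ (∀ M N : SL, hs (M * N) ≤ hs M * hs N) ∧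
  ∀ w : List Ltr, Continuous (fun l : ℂ => Real.log (hs (wmat w l))) ∧
    ∀ l : ℂ, 0 ≤ Real.log (hs (wmat w l)) ∧
      Real.log (hs (wmat w l)) ≤ w.length * Real.log (‖l‖ + 2)

/-- P1 (uses S_LP, S_RO, S_AV1, S_FB, S_WM). Fixed `β`. Apply S_FB with
`h α l = log ‖bf (wmat w l) α β‖`, `K l = log (vn (wmat w l) β)` (continuous: `vn > 0`, polynomial
entries), `f = Lap φ`, `c = 1`; `bf M α β = ∑_i ev α i * z i`, `z i = ∑_j M i j ev β j ≠ 0`. For
almost every `α` the polynomial `P` of S_WM is not zero (its value at `l = 0` is not zero), and then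
`∫ h f = 2π (P.roots.map φ).sum ≥ 2π B` by S_RO. -/
def S_P1 : Prop := ∀ (w : List Ltr) (β : ℝ) (φ : ℂ → ℝ) (B : ℝ), Test φ →
  (∀ (α : ℝ) (P : Polynomial ℂ), P ≠ 0 → (∀ l : ℂ, bf (wmat w l) α β = P.eval l) →
    B ≤ (P.roots.map φ).sum) →
  2 * Real.pi * B - (∫ l, |Lap φ l|) ≤ ∫ l, Real.log (vn (wmat w l) β) * Lap φ l

/-- P2 (uses S_LP, S_P1, S_AV2, S_FB, S_HB). S_FB with `h β l = log (vn (wmat w l) β)`,
`K l = log (hs (wmat w l))`, `c = 2`, and S_P1 for every `β`; `1 + 2 ≤ 4`. -/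
def S_P2 : Prop := ∀ (w : List Ltr) (φ : ℂ → ℝ) (B : ℝ), Test φ →
  (∀ (α β : ℝ) (P : Polynomial ℂ), P ≠ 0 → (∀ l : ℂ, bf (wmat w l) α β = P.eval l) →
    B ≤ (P.roots.map φ).sum) →
  2 * Real.pi * B - 4 * (∫ l, |Lap φ l|) ≤ ∫ l, Real.log (hs (wmat w l)) * Lap φ l

/-- SH1. `(cos θ + q sin θ) + i sin θ = e^{iθ} (1 + q sin θ e^{-iθ})`; the number
`u = 1 + q sin θ e^{-iθ} = 1 + q sin θ cos θ - i q (sin θ)^2` is in the slit plane (if its imaginary
part is zero then `q sin θ = 0` and `u = 1`), so `Complex.arg u` is continuous in `(q, θ)` and of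
modulus `< π`, and `e^{iθ} u = ‖u‖ e^{i (θ + arg u)}`; `r = ‖u‖`. `u` is `π`-periodic in `θ`. -/
def S_SH1 : Prop := Continuous (fun p : ℝ × ℝ => sh p.1 p.2) ∧
  ∀ q θ : ℝ, |sh q θ - θ| < Real.pi ∧ sh q (θ + Real.pi) = sh q θ + Real.pi ∧
    ∃ r : ℝ, 0 < r ∧ Real.cos θ + q * Real.sin θ = r * Real.cos (sh q θ) ∧
      Real.sin θ = r * Real.sin (sh q θ)

/-- SH2 (uses S_SH1). For `θ < θ' < θ + π`: `sin (sh q θ' - sh q θ) > 0`, because the determinant of the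
vectors `(cos θ + q sin θ, sin θ)` and `(cos θ' + q sin θ', sin θ')` is `sin (θ' - θ) > 0`. So the
continuous function `θ' ↦ sh q θ' - sh q θ` on `[θ, θ + π)` has no zero in `(θ, θ + π)`, value `0` at
`θ`, and is never a multiple of `π` there; so it stays in `(0, π)` (it cannot be in `(-π, 0)` since the
sine is positive; values in `(0, π)` or beyond would need to cross a multiple of `π`). For
`θ' ≥ θ + π` use `sh q (θ + π) = sh q θ + π`. -/
def S_SH2 : Prop := ∀ q : ℝ, StrictMono (sh q)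

/-- LF (uses S_SH1, S_SH2). Directly: `rmat .a l = (1, l; 0, 1) (0, -1; 1, 0)`, and
`(0, -1; 1, 0) e_θ = e_{θ + π/2}`; `rmat .ai l = (0, 1; -1, 0) (1, -l; 0, 1)`,
`(0, 1; -1, 0) e_θ = e_{θ - π/2}`. -/
def S_LF : Prop := ∀ s : Ltr, Continuous (fun p : ℝ × ℝ => lift s p.1 p.2) ∧
  ∀ l : ℝ, StrictMono (lift s l) ∧ ∀ θ : ℝ, |lift s l θ - θ| < 3 * Real.pi / 2 ∧
    lift s l (θ + Real.pi) = lift s l θ + Real.pi ∧
    ∃ r : ℝ, 0 < r ∧ (rmat s l).mulVec (ev θ) = r • ev (lift s l θ)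

/-- L3 (uses S_SH1). `lift .a 3 (π/4) = sh 3 (3π/4)`: the vector is a positive multiple of
`(2, 1)`, so `tan = 1/2` and, as `|sh 3 (3π/4) - 3π/4| < π`, `sh 3 (3π/4) ∈ (-π/4, 7π/4)` is
`arctan (1/2) < π/4`. In the same way `lift .a (-3) (3π/4) = sh (-3) (5π/4)` with vector a positive
multiple of `(2, -1)` (`cos (5π/4) - 3 sin (5π/4) = 2 · √2/2`, `sin (5π/4) = -√2/2`), in
`(π/4, 9π/4)`: it is `2π - arctan (1/2) ≥ 7π/4`. (`cos > 0`, `sin < 0`, `|sin| < cos`.) -/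
def S_L3 : Prop := lift Ltr.a 3 (Real.pi / 4) ≤ Real.pi / 4 ∧
  3 * Real.pi / 4 + Real.pi ≤ lift Ltr.a (-3) (3 * Real.pi / 4)

/-- LW1 (uses S_LF). Induction on the word. -/
def S_LW1 : Prop := ∀ (w : List Ltr) (θ : ℝ), Continuous (fun l : ℝ => lw w l θ) ∧
  ∀ l : ℝ, ∃ r : ℝ, 0 < r ∧ (rwmat w l).mulVec (ev θ) = r • ev (lw w l θ)

/-- LW2 (uses S_LF, S_L3). Let `b θ` be the smallest number of the form `π/4 + k π`, `k ∈ ℤ`, with
`θ ≤ b θ` (`b θ = π/4 + π ⌈(θ - π/4)/π⌉`). Then `lift .a 3 θ ≤ lift .a 3 (b θ) ≤ b θ` (monotone,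
equivariant, S_L3), so `b (lift .a 3 θ) ≤ b θ`; for every letter `lift s 3 θ ≤ θ + 2π`, so
`b (lift s 3 θ) ≤ b θ + 2π`. By induction `lw w 3 θ ≤ b (lw w 3 θ) ≤ b θ + 2π nm w ≤ θ + π + 2π nm w`.
At `-3`: `b' θ` = largest number `3π/4 + k π ≤ θ`; `lift .a (-3) θ ≥ lift .a (-3) (b' θ) ≥ b' θ + π`,
`b' (lift s (-3) θ) ≥ b' θ - 2π` for every letter. -/
def S_LW2 : Prop := ∀ (w : List Ltr) (θ : ℝ),
  lw w 3 θ ≤ θ + Real.pi + 2 * Real.pi * nm w ∧
  θ - Real.pi + Real.pi * na w - 2 * Real.pi * nm w ≤ lw w (-3) θ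

/-- CT (uses S_LW1, S_LW2). `g l = lw w l β - α` is continuous on `[-3, 3]` with
`g (-3) - g 3 ≥ π (na - 4 nm - 2)`; for every integer `j` with `g 3 ≤ π/2 + j π ≤ g (-3)` choose by
the intermediate value theorem `t_j ∈ [-3, 3]` with `g t_j = π/2 + j π`; there are at least
`na - 4 nm - 3` such `j`, the `t_j` are distinct, and
`⟨e_α, M e_β⟩ = r cos (lw w t β - α) = 0` there. -/
def S_CT : Prop := ∀ (w : List Ltr) (α β : ℝ), ∃ Z : Finset ℝ,
  (na w : ℝ) - 4 * nm w - 3 ≤ Z.card ∧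
  ∀ t ∈ Z, t ∈ Icc (-3 : ℝ) 3 ∧ ∑ i, ∑ j, ev α i * rwmat w t i j * ev β j = 0

/-- RT (uses S_CT, S_WM). The zeros of S_CT are roots of `P`, and `φ ≥ 0`, `φ ≥ 1` on the segment:
the sum over the multiset of roots is at least the sum over the finset `Z` (embedded in `ℂ`, a
sub-finset of `P.roots.toFinset`). If `φ ≤ 1` the sum is at most `P.roots.card ≤ natDegree P`, and
`P` is the polynomial of S_WM (polynomials with the same values are equal). -/
def S_RT : Prop := ∀ (w : List Ltr) (α β : ℝ) (P : Polynomial ℂ), P ≠ 0 →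
  (∀ l : ℂ, bf (wmat w l) α β = P.eval l) → ∀ φ : ℂ → ℝ, (∀ z, 0 ≤ φ z) →
    0 ≤ (P.roots.map φ).sum ∧
    ((∀ z ∈ seg, 1 ≤ φ z) → (na w : ℝ) - 4 * nm w - 3 ≤ (P.roots.map φ).sum) ∧
    ((∀ z, φ z ≤ 1) → (P.roots.map φ).sum ≤ w.length)

/-- E1. Induction on `n` (`∑ s, q ε s = 1`, `q ε s ≥ 0`; `Fintype` sum over the four letters:
`Finset.univ = {a, ai, d, di}`, `decide` / `rfl` / `simp`). -/
def S_E1 : Prop := ∀ ε : ℝ, 0 ≤ ε → ε ≤ 1 / 3 → ∀ n : ℕ,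
  (∀ (F H : List Ltr → ℝ), Ew ε n (fun w => F w + H w) = Ew ε n F + Ew ε n H) ∧
  (∀ (c : ℝ) (F : List Ltr → ℝ), Ew ε n (fun w => c * F w) = c * Ew ε n F) ∧
  (∀ c : ℝ, Ew ε n (fun _ => c) = c) ∧
  (∀ (F H : List Ltr → ℝ), (∀ w : List Ltr, w.length = n → F w ≤ H w) → Ew ε n F ≤ Ew ε n H)

/-- E2. Induction on `n`: `Ew (m + (n+1)) F = ∑ q s Ew (m+n) (fun w => F (w ++ [s]))`, and
`(u ++ v) ++ [s] = u ++ (v ++ [s])`. For `na`, `nm`: induction on `n` with S_E1 not needed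
(`na (w ++ [s]) = na w + (if s = a then 1 else 0)`), prove linearity on the way. -/
def S_E2 : Prop := ∀ ε : ℝ, 0 ≤ ε → ε ≤ 1 / 3 →
  (∀ (m n : ℕ) (F : List Ltr → ℝ),
    Ew ε (m + n) F = Ew ε m (fun u => Ew ε n (fun v => F (u ++ v)))) ∧
  ∀ n : ℕ, Ew ε n (fun w => (na w : ℝ)) = n * (1 - 3 * ε) ∧
    Ew ε n (fun w => (nm w : ℝ)) = n * (3 * ε)

/-- E3. Finite sums commute with integrals and limits: induction on `n`. -/
def S_E3 : Prop := ∀ (ε : ℝ) (n : ℕ),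
  (∀ F : List Ltr → ℂ → ℝ, (∀ w, Integrable (F w)) →
    Integrable (fun l => Ew ε n (fun w => F w l)) ∧
    ∫ l, Ew ε n (fun w => F w l) = Ew ε n (fun w => ∫ l, F w l)) ∧
  (∀ F : List Ltr → ℂ → ℝ, (∀ w, Continuous (F w)) → Continuous (fun l => Ew ε n (fun w => F w l)))

/-- CH (uses S_E1, S_E2, S_HB). Fekete (`Subadditive.tendsto_lim`) for
`c n = Ew ε n (fun w => log (hs (wmat w l)))`: `c (m + n) ≤ c m + c n` by S_E2, submultiplicativity
and `wmat (u ++ v) l = wmat u l * wmat v l`; `c n ≥ 0`. `chi ε l` is the limit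
(`Tendsto.limUnder_eq`). -/
def S_CH : Prop := ∀ ε : ℝ, 0 ≤ ε → ε ≤ 1 / 3 → ∀ l : ℂ,
  Tendsto (fun n : ℕ => Ew ε n (fun w => Real.log (hs (wmat w l))) / n) atTop (𝓝 (chi ε l)) ∧
  ∀ n : ℕ, 0 ≤ Ew ε n (fun w => Real.log (hs (wmat w l))) / n ∧
    Ew ε n (fun w => Real.log (hs (wmat w l))) / n ≤ Real.log (‖l‖ + 2)

/-- LM (uses S_LP, S_CH, S_E3, S_HB, S_E1). `chi ε` is a pointwise limit of continuous functions with
values in `[0, log (‖l‖ + 2)]`, so it is measurable and locally integrable; dominated convergence with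
the bound `log (‖l‖ + 2) |Lap φ l|`. -/
def S_LM : Prop := ∀ ε : ℝ, 0 ≤ ε → ε ≤ 1 / 3 → LocallyIntegrable (chi ε) ∧
  ∀ φ : ℂ → ℝ, Test φ →
    Tendsto (fun n : ℕ => Ew ε n (fun w => ∫ l, Real.log (hs (wmat w l)) * Lap φ l) / n) atTop
      (𝓝 (∫ l, chi ε l * Lap φ l))

/-- M1 (uses S_LM, S_P2, S_RT, S_E1, S_E2). For every word of length `n` by S_P2 and S_RT
`∫ log (hs (wmat w)) Lap φ ≥ 2π (na - 4 nm - 3) - 4 ∫ |Lap φ|` (if `φ ≥ 1` on the segment), `≥ -4 ∫ |Lap φ|`,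
and (S_P2 for `-φ`, `B = -n`) `≤ 2π n + 4 ∫ |Lap φ|` if `φ ≤ 1`. Take expectations, divide by `n`,
`n → ∞`: `(1 - 3ε) - 12 ε = 1 - 15 ε`. (`Lap (-φ) = - Lap φ`.) -/
def S_M1 : Prop := ∀ ε : ℝ, 0 ≤ ε → ε ≤ 1 / 3 → ∀ φ : ℂ → ℝ, Test φ → (∀ z, 0 ≤ φ z) →
  0 ≤ (∫ l, chi ε l * Lap φ l) ∧
  ((∀ z ∈ seg, 1 ≤ φ z) → 2 * Real.pi * (1 - 15 * ε) ≤ ∫ l, chi ε l * Lap φ l) ∧
  ((∀ z, φ z ≤ 1) → ∫ l, chi ε l * Lap φ l ≤ 2 * Real.pi)

/-- RM. A positive distribution is a measure (Riesz-Markov). `ℓ φ = (1/2π) ∫ χ Lap φ`. Compare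
`Pool.Agent.H314.MA.exists_measure_of_limits` (file Pool/Agent/H314/MA/Riesz.lean; the same for
`ℂ × ℂ`): it constructs the measure from limits of densities with `RealRMK`. Way 1: mollify: for a
smooth bump `η_k ≥ 0` (`ContDiffBump`, normed, radius `1/k`), the density `f_k = (1/2π) χ * Lap η_k`
(convolution) is continuous and nonnegative (it is `ℓ` of a translate of `η_k`), and
`∫ φ f_k = (1/2π) ∫ χ (Lap (φ * η_k)) → ℓ φ` for every test function. Then argue as in that file.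
Way 2: define the positive functional on `C_c(ℂ)` by density: for `g` continuous with compact support
approximate uniformly by test functions with supports in a fixed compact set
(`Continuous.exists_contDiff_approx`), `|ℓ φ| ≤ sup |φ| ℓ η` for a cutoff `η ≥ 1` on the
support, so `ℓ` extends. -/
def S_RM : Prop := ∀ χ : ℂ → ℝ, LocallyIntegrable χ →
  (∀ φ : ℂ → ℝ, Test φ → (∀ z, 0 ≤ φ z) → 0 ≤ ∫ z, χ z * Lap φ z) → ∃ T : Measure ℂ, IsBif χ T

/-- SG. `seg` is compact; take smooth `φ_k` with `φ_k = 1` on `seg`, `0 ≤ φ_k ≤ 1`, support in the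
closed `1/k`-neighbourhood (`exists_contDiff_tsupport_subset` or `exists_smooth...`): `c ≤ ∫ φ_k ≤
T (cthickening (1/k) seg) → T seg` (continuity from above, finite on compacts). -/
def S_SG : Prop := ∀ (T : Measure ℂ) (c : ℝ), IsLocallyFiniteMeasure T →
  (∀ φ : ℂ → ℝ, Test φ → (∀ z, 0 ≤ φ z) → (∀ z ∈ seg, 1 ≤ φ z) → c ≤ ∫ z, φ z ∂T) →
  ENNReal.ofReal c ≤ T seg

/-- TT. `ContDiffBump` with `φ = 1` on the ball of radius `k`: `T (ball 0 k) ≤ ∫ φ ≤ 1`; continuity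
from below. -/
def S_TT : Prop := ∀ T : Measure ℂ, IsLocallyFiniteMeasure T →
  (∀ φ : ℂ → ℝ, Test φ → (∀ z, 0 ≤ φ z) → (∀ z, φ z ≤ 1) → ∫ z, φ z ∂T ≤ 1) → T univ ≤ 1

/-- NR. The center of `SL(2, ℂ)` is `{1, -1}` (`Matrix.SpecialLinearGroup.mem_center_iff`), `hs (-M) = hs M`;
`Quotient.out (pr M)` is `M z` with `z` central. -/
def S_NR : Prop := (∀ M : SL, nrm (pr M) = hs M) ∧ ∀ M N : SL, pr M = pr N → M.1 = N.1 ∨ M.1 = -N.1

/-- CV. `∑_{g ∈ Sx} px g * H g = ∑_s q s * H (gl s)` (interchange the sums), then induction on `n`;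
`(w ++ [s]).map gl` has product `(w.map gl).prod * gl s`. -/
def S_CV : Prop := ∀ (ε : ℝ) (n : ℕ) (F : Gp → ℝ),
  conv Sx (px ε) n F = Ew ε n (fun w => F ((w.map gl).prod))

/-- AD. `Sx` is the image of the four letters; `px > 0` on it, sum as in S_CV (`F = 1`). The group
`Gp` is the subgroup generated by `elt a, elt d`; the four elements generate it as a semigroup:
the subsemigroup generated by `gl a, gl ai, gl d, gl di` contains `1 = gl a * gl ai`, is closed under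
inverses, so its image in the functions contains the subgroup closure (`Subgroup.closure_induction`). -/
def S_AD : Prop := ∀ ε : ℝ, 0 < ε → ε < 1 / 3 → Admissible Sx (px ε)

/-- HO. `Subgroup.closure_induction`: generators by `mA`, `mD` (entries polynomial), product, inverse
(the inverse matrix `(d, -b; -c, a)`). -/
def S_HO : Prop := ∀ g : Gp, ∃ M : ℂ → SL, (∀ i j, Differentiable ℂ fun l => (M l).1 i j) ∧
  ∀ l, rho l g = pr (M l)

/-- FA (uses S_HO, S_NR). `Gp` is countable (finitely generated). If `g ≠ 1` then for some `l` the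
matrix `M l` of S_HO is not `±1`; one of the entire functions `M 0 1, M 1 0, M 0 0 - M 1 1` is not
identically zero (if all vanish, `M l = c(l) 1` with `c(l)^2 = 1`, so `M l = ±1` for all `l`), so
`{l | M l = ± 1}` is contained in the zero set of an entire function that is not zero: countable
(`AnalyticOnNhd` identity theorem, discrete closed; e.g. `Differentiable.analyticOnNhd`,
`AnalyticOnNhd.eqOn_zero_or_...codiscrete`, `preimage_zero_mem_codiscrete`, countability of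
codiscrete complements). Union over `g`. -/
def S_FA : Prop := {l : ℂ | ¬ Function.Injective (rho l)}.Countable

/-- NE (uses S_NR). Unbounded: `rho l (gl d ^ n) = pr (1, n; 0, 1)`, `hs ≥ n`. No finite invariant set
`F` of lines: for `L ∈ F` the lines `D^n L`, `n ∈ ℕ`, are in `F`, so `D^m L = L` for some `m ≥ 1`, so
`L` is an eigenline of `(1, m; 0, 1)`: `L = ℂ (1, 0)`. So `F = {ℂ (1, 0)}`, but `mA l (1, 0) = (l, 1)`
is not in `ℂ (1, 0)`. -/
def S_NE : Prop := ∀ l : ℂ, NonElementary (rho l)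

/-- NC (uses S_NR). The square of the trace is a conjugacy invariant of `PSL(2, ℂ)`; for `gl a` it is
`l^2`; take `l = 0`, `l' = 1`. -/
def S_NC : Prop := ∃ l l' : ℂ, ¬ ∃ P : PSL, ∀ g, rho l' g = P * rho l g * P⁻¹

/-- RE. `P = 1`; `Subgroup.closure_induction` with the real matrices `(t, -1; 1, 0)`, `(1, 1; 0, 1)`
(`Matrix.SpecialLinearGroup.map` is a homomorphism). -/
def S_RE : Prop := ∀ t : ℝ, IsReal (rho (t : ℂ))

end Pool.Agent.Q75.BM
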